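import Pool.Agent.MP_249f74_an.H58.LinReal
import Pool.Agent.MP_249f74_an.H65.Self
import Pool.Agent.MP_249f74_an.H27.Lift

/-!
A one step relation is a relation between squarefree line polynomials.
-/

open MvPolynomial Set

namespace Pool.Agent.MP_249f74_an.H58

open H32 (Mir Pts Δ sys sec pos dir pt edge St)
open H42 (ev Gen Cur FL Sf inv_ev)
open H96A (Inv)
open H65 (Lin)
open H88 (rk cl subset_cl)

lemma odd_dvd {A : Type} [CommRing A] [IsDomain A] [WfDvdMonoid A] {a e h P π : A} (hπ : Prime π)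
    (hh : Squarefree h) (hd : π ∣ h) (a0 : a ≠ 0) (q : a ^ 2 * h = e ^ 2 * P) : π ∣ P := by
  by_contra hn
  have f : ∀ {x : A}, x ≠ 0 → FiniteMultiplicity π x := fun hx => .of_prime_left hπ hx
  have n : e ^ 2 * P ≠ 0 := q ▸ mul_ne_zero (pow_ne_zero 2 a0) hh.ne_zero
  have := congrArg (multiplicity π) q
  rw [multiplicity_mul hπ (f (q ▸ n)), multiplicity_mul hπ (f n), (f a0).multiplicity_pow hπ,
    (f fun z => n (by simp [z])).multiplicity_pow hπ, multiplicity_eq_zero.2 hn,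
    multiplicity_eq_of_dvd_of_not_dvd (b := h) (k := 1) (by rwa [pow_one]) fun z =>
      hπ.not_isUnit (hh π (by simpa [pow_two] using z))] at this
  omega

variable {k C Ω ι : Type} [Field k] [Field C] [Algebra k C] [Field Ω] [Algebra C Ω]
  [IsAlgClosed Ω] [CharZero Ω]

lemma sqf_map {κ : Type} [Fintype κ] {l : κ → Ω} (hl : Gen C l) {h : MvPolynomial κ k}
    (hh : Squarefree h) : Squarefree (map (algebraMap k C) h) := by
  letI : Algebra k Ω := ((algebraMap C Ω).comp (algebraMap k C)).toAlgebra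
  haveI : IsScalarTower k C Ω := .of_algebraMap_eq fun _ => rfl
  refine (squarefree_iff_irreducible_sq_not_dvd_of_ne_zero fun z => hh.ne_zero
    (map_injective _ (algebraMap k C).injective (by rw [z, map_zero]))).2 fun π hπ ⟨E, hE⟩ => ?_
  obtain ⟨-, z, -, -, hz, -⟩ := H65.gp (H32.gen_iff.1 hl) hπ.prime
  have h0 : aeval z h = 0 := by
    rw [← aeval_map_algebraMap C, hz, hE, mul_assoc]
    exact dvd_mul_right _ _
  refine H65.no_sing (H32.cur_iff_rk.2 (le_antisymm (H32.rk_lt hh.ne_zero h0) ?_)) hh h0 fun s => ?_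
  · rw [← H32.cur_iff_rk.1 ⟨π, hπ.prime, hz⟩]
    obtain ⟨n, hn⟩ := ENat.ne_top_iff_exists.1 (H32.rk_ne_top (C := C) z)
    obtain ⟨J, j1, j2⟩ := (H88.le_rk_iff _ n).1 hn.le
    exact add_le_add_left (hn ▸ (H88.le_rk_iff _ n).2
      ⟨J, j1, j2.restrictScalars (algebraMap k C).injective⟩) 1
  · rw [← aeval_map_algebraMap C, hz, ← pderiv_map, hE]
    exact ⟨pderiv s π * E * 2 + π * pderiv s E, by simp; ring⟩

variable [Algebra k ℝ] [Fintype ι] [DecidableEq ι] [IsAlgClosed C]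
  {m : Mir k C ι} {l l' : ι ⊕ ι → Ω} {t : Ω}

/-- The first polynomial of a one step relation is a line polynomial. -/
lemma lin_rel (hf : Sf C Ω (ι ⊕ ι)) (hS : (sys k C Ω ι).Sec) (hl : Gen C l) (st : St m l t l')
    {Φ h : MvPolynomial (ι ⊕ ι) C} (hΦ : Squarefree Φ) (h1 : Lin h) (h0 : h ≠ 0) {s : Ω}
    (hs : ∀ σ ∈ FL C l, σ t = t → σ s = s) (e : s ^ 2 = ev l Φ * ev l' h) : Lin Φ := by
  have : CharZero C := (algebraMap C Ω).charZero
  have key : ∀ π, Prime π → π ∣ Φ → Lin π := fun π hπ hd => by_contra fun hn => by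
    have inj : Function.Injective (ev l : MvPolynomial (ι ⊕ ι) C →ₐ[C] Ω) :=
      (injective_iff_map_eq_zero _).2 hl
    obtain ⟨c, hc⟩ := IsAlgClosed.exists_root ((H18.sh π).map (ev (C := C) l).toRingHom)
      fun z => by
      have := congrArg Polynomial.derivative (Polynomial.eq_C_of_degree_eq_zero z)
      rw [Polynomial.derivative_C, Polynomial.derivative_map, Polynomial.map_eq_zero_iff inj,
        H18.sh_der] at this
      exact hn (H18.sh_eq_zero this)
    have hz : ev (edge (pt l t) (dir l) (t - c)) π = 0 := by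
      have := H65.map_ev (Polynomial.eval₂AlgHom (ev l : MvPolynomial (ι ⊕ ι) C →ₐ[C] Ω) c
        fun _ => Commute.all _ _) (fun i => Polynomial.C (X (.inl i)) +
          Polynomial.X * Polynomial.C (X (.inr i))) (fun i => Polynomial.C (X (.inr i))) π
      rw [Polynomial.IsRoot, Polynomial.eval_map] at hc
      rw [← hc]
      refine Eq.trans ?_ this.symm
      rw [H18.ev_eq]
      congr 2
      · ext i
        simp [edge, pt, pos, dir, ev]
        ring
      · ext i
        simp [edge, dir, ev]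
    have s1 : St m (edge (pt l t) (dir l) (t - c)) (t - c) (edge (pt l t) (dir l') (t - c)) :=
      ⟨by simpa using st.zero, by simpa using st.nn, by simpa using st.nu, by simp,
        by simpa using st.dir_eq⟩
    have hk : Cur C (edge (pt l t) (dir l) (t - c)) := H32.cur_iff_rk.2 (le_antisymm
      (H32.rk_lt hπ.ne_zero hz) ((H32.gen_iff_rk.1 hl).trans ((H88.rk_le (S := insert c
        (range (edge (pt l t) (dir l) (t - c)))) ?_).trans (H88.rk_insert_le _ _))))
    · refine H42.Sys.par (S := sys k C Ω ι) hf H32.bas H27.lift (m := fun _ => m) (a := 0) (b := 1)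
        (j := 0) (L := fun i => if i ≤ 0 then l else l') (t := fun _ => t) (u := fun _ => t - c)
        (K := fun i => if i ≤ 0 then edge (pt l t) (dir l) (t - c)
          else edge (pt l t) (dir l') (t - c)) (Ψ := Φ) (Φ := 1) (Φ' := h) (r := s) le_rfl
        zero_le_one ⟨fun i k1 k2 => ?_, fun i k1 k2 => by omega⟩ hl (fun i k1 k2 => ?_)
        ⟨fun i k1 k2 => ?_, fun i k1 k2 => by omega⟩ hk hΦ ?_ (by simp) ?_ (by simpa using e)
        fun σ hσ => hs σ (hσ.1 0 le_rfl zero_le_one) (hσ.2 0 le_rfl zero_lt_one)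
      · obtain rfl : i = 0 := by omega
        exact st
      · obtain rfl : i = 0 := by omega
        rw [H42.Sys.FR, H42.Sys.Fr, if_neg (lt_irrefl _), H42.hg_self]
        exact hS.full m l hl
      · obtain rfl : i = 0 := by omega
        exact s1
      · obtain ⟨E, rfl⟩ := hd
        rw [if_pos le_rfl, map_mul, hz, zero_mul]
      · rw [if_neg (by omega), h1.edge, ← st.pt_eq, ← h1.edge _ _ t, H32.edge_pt]
        exact fun z => h0 (st.gen hl _ z)
    · have g : ∀ i, edge (pt l t) (dir l) (t - c) i ∈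
          cl C (insert c (range (edge (pt l t) (dir l) (t - c)))) :=
        fun i => subset_cl _ (.inr ⟨i, rfl⟩)
      rintro _ ⟨i | i, rfl⟩
      · convert sub_mem (g (.inl i)) (mul_mem (subset_cl _ (mem_insert c _)) (g (.inr i))) using 1
        simp [edge, pt, pos, dir]
        ring
      · exact g (.inr i)
  clear e
  induction Φ using UniqueFactorizationMonoid.induction_on_prime with
  | h₁ => simp [Lin]
  | h₂ x hx =>
    obtain ⟨c, -, rfl⟩ := isUnit_iff_eq_C_of_isReduced.1 hx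
    simp [Lin]
  | h₃ a p _ hp ih =>
    exact (key p hp (dvd_mul_right _ _)).mul
      (ih hΦ.of_mul_right fun π hπ hd => key π hπ (hd.mul_left _))

theorem pre (hf : Sf C Ω (ι ⊕ ι)) (hS : (sys k C Ω ι).Sec) (hl : Gen C l) (st : St m l t l')
    {J : Finset (Mir k C ι)} {x r : Ω} (x0 : x ≠ 0) (hx : Inv (FL C l) x)
    (hr : ∀ σ ∈ FL C l, σ t = t → σ r = r) (e : r ^ 2 = x * (sys k C Ω ι).R J l') :
    ∃ (Φ : MvPolynomial (ι ⊕ ι) C) (h : MvPolynomial (ι ⊕ ι) k) (s : Ω), Squarefree Φ ∧ Lin Φ ∧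
      Lin h ∧ Squarefree (map (algebraMap k C) h) ∧
      (∀ T ∈ J, H18.Tn T.f (map (algebraMap k C) h)) ∧
      (∀ π, Prime π → π ∣ map (algebraMap k C) h → ∃ T ∈ J, π ∣ Δ Ω T) ∧
      (∀ σ ∈ FL C l, σ t = t → σ s = s) ∧
      s ^ 2 = ev l Φ * ev l' (map (algebraMap k C) h) := by
  have : CharZero C := (algebraMap C Ω).charZero
  have : CharZero k := (algebraMap k ℝ).charZero
  choose D b d D0 D1 b0 d0 hD using linreal hf hS hl
  have P0 : ∏ T ∈ J, D T ≠ 0 := Finset.prod_ne_zero_iff.2 fun T _ => D0 T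
  obtain ⟨h, A, h1, A0, hA⟩ := H96A.Bt.sqfree _ P0
  have h2 : Lin h := H65.Lin.dvd (Finset.prod_induction _ Lin (fun _ _ => Lin.mul) (by simp [Lin])
    fun T _ => D1 T) P0 ⟨_, hA⟩
  have h3 := sqf_map hl h1
  obtain ⟨B, E, B0, E0, q⟩ : ∃ B E : MvPolynomial (ι ⊕ ι) C, B ≠ 0 ∧ E ≠ 0 ∧
      B ^ 2 * map (algebraMap k C) h = E ^ 2 * ∏ T ∈ J, Δ Ω T :=
    ⟨(∏ T ∈ J, b T) * map (algebraMap k C) A, ∏ T ∈ J, d T, mul_ne_zero
      (Finset.prod_ne_zero_iff.2 fun T _ => b0 T) fun z => A0 (map_injective _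
        (algebraMap k C).injective (by rw [z, map_zero])), Finset.prod_ne_zero_iff.2 fun T _ => d0 T,
      by rw [mul_pow, mul_assoc, ← map_pow, ← map_mul, mul_comm _ h, ← hA, map_prod,
        ← Finset.prod_pow, ← Finset.prod_pow, ← Finset.prod_mul_distrib,
        ← Finset.prod_mul_distrib]; exact Finset.prod_congr rfl fun T _ => hD T⟩
  obtain ⟨Φ, w, hΦ, w0, hw, e1⟩ := H42.sqf hf hl x0 hx
  have gl := st.gen hl
  have hs : ∀ σ ∈ FL C l, σ t = t → σ (r * ev l' E / (w * ev l' B)) = r * ev l' E / (w * ev l' B) :=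
    fun σ k1 k2 => by
      have := (H32.bas (k := k)).fix (μ := m) st k1 k2
      rw [map_div₀, map_mul, map_mul, hr σ k1 k2, hw σ k1, inv_ev _ _ σ this, inv_ev _ _ σ this]
  have e2 : (r * ev l' E / (w * ev l' B)) ^ 2 = ev l Φ * ev l' (map (algebraMap k C) h) := by
    have q1 := congrArg (ev l') q
    have n : ev l' B ≠ 0 := fun z => B0 (gl _ z)
    rw [map_mul, map_mul, map_pow, map_pow] at q1
    rw [div_pow, mul_pow, e, e1, H42.Sys.R_eq, mul_assoc, mul_comm _ (ev l' E ^ 2)]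
    erw [← q1]
    field_simp
  refine ⟨Φ, h, _, hΦ, lin_rel hf hS hl st hΦ h2.map h3.ne_zero hs e2, h2, h3, fun T hT => ?_,
    fun π hπ hd => (hπ.dvd_finset_prod_iff _).1 (odd_dvd hπ h3 hd B0 q), hs, e2⟩
  obtain ⟨z, hz⟩ := hS.ex T
  obtain ⟨Ψ, U, p1, p2, p3, p4⟩ := hS.odd hT hz
  obtain ⟨π, hπ, hk⟩ := hS.cur _ _ hz
  have p5 : ∏ T ∈ J, Δ Ω T = Ψ * U ^ 2 := sub_eq_zero.1 (hl _ (by
    rw [map_sub, map_mul, map_pow, ← p4, H42.Sys.R_eq]
    exact sub_self _))
  exact H18.Tn.of_tl h2.map hz ((hk _).2 (odd_dvd (a := E * U) (e := B) hπ p1 ((hk _).1 p3)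
    (mul_ne_zero E0 p2) (by rw [q, p5]; ring)))

end Pool.Agent.MP_249f74_an.H58
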