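import Pool.Agent.MP_249f74_an.H96A.Ch
import Pool.Agent.MP_249f74_an.H96A.Grp

/-!
From relations between siblings to a one step relation.
-/

namespace Pool.Agent.MP_249f74_an.H58

open H96A (Fx Inv Full sg grp mem_Fx_one)
open scoped Classical

variable {C Ω : Type} [Field C] [Field Ω] [Algebra C Ω]
variable {G : Subgroup (Ω ≃ₐ[C] Ω)} {P : Finset Ω}

lemma trans2 (h : Full G P) {a b a' b' : Ω} (ha : a ∈ P) (hb : b ∈ P) (ha' : a' ∈ P)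
    (hb' : b' ∈ P) (k : a ≠ b) (k' : a' ≠ b') : ∃ σ ∈ G, σ a = a' ∧ σ b = b' := by
  obtain ⟨σ, s1, s2⟩ := grp.trans _ _ _ _ h ha ha'
  obtain ⟨τ, t1, t2⟩ := grp.trans _ _ (σ b) b' (grp.stab _ _ _ h ha')
    (Finset.mem_erase.2 ⟨fun e => k (σ.injective (s2.trans e.symm)), h.stb σ s1 b hb⟩)
    (Finset.mem_erase.2 ⟨k'.symm, hb'⟩)
  exact ⟨τ * σ, mul_mem t1.1 s1, by rw [AlgEquiv.mul_apply, s2, mem_Fx_one.1 t1.2], t2⟩

lemma trans3 (h : Full G P) {a b c a' b' c' : Ω} (ha : a ∈ P) (hb : b ∈ P) (hc : c ∈ P)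
    (ha' : a' ∈ P) (hb' : b' ∈ P) (hc' : c' ∈ P) (k1 : a ≠ b) (k2 : a ≠ c) (k3 : b ≠ c)
    (k1' : a' ≠ b') (k2' : a' ≠ c') (k3' : b' ≠ c') :
    ∃ σ ∈ G, σ a = a' ∧ σ b = b' ∧ σ c = c' := by
  obtain ⟨σ, s1, s2⟩ := grp.trans _ _ _ _ h ha ha'
  obtain ⟨τ, t1, t2, t3⟩ := trans2 (a := σ b) (b := σ c) (grp.stab _ _ _ h ha')
    (Finset.mem_erase.2 ⟨fun e => k1 (σ.injective (s2.trans e.symm)), h.stb σ s1 b hb⟩)
    (Finset.mem_erase.2 ⟨fun e => k2 (σ.injective (s2.trans e.symm)), h.stb σ s1 c hc⟩)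
    (Finset.mem_erase.2 ⟨k1'.symm, hb'⟩) (Finset.mem_erase.2 ⟨k2'.symm, hc'⟩)
    (fun e => k3 (σ.injective e)) k3'
  exact ⟨τ * σ, mul_mem t1.1 s1, by rw [AlgEquiv.mul_apply, s2, mem_Fx_one.1 t1.2], t2, t3⟩

lemma third (hP : 3 ≤ P.card) {a b : Ω} (ha : a ∈ P) (hb : b ∈ P) (k : a ≠ b) :
    ∃ c ∈ P, c ≠ a ∧ c ≠ b := by
  obtain ⟨c, hc⟩ : ((P.erase a).erase b).Nonempty := by
    rw [← Finset.card_pos, Finset.card_erase_of_mem (Finset.mem_erase.2 ⟨k.symm, hb⟩),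
      Finset.card_erase_of_mem ha]
    omega
  simp only [Finset.mem_erase] at hc
  exact ⟨c, hc.2.2, hc.2.1, hc.1⟩

lemma ex_pow {y : Ω → Ω} {s : Ω} (hs : s ∈ P) (h : y s ≠ 0) : ∃ a : ℕ, ∑ i ∈ P, i ^ a * y i ≠ 0 := by
  by_contra hc
  push Not at hc
  have key : ∀ q : Polynomial Ω, ∑ i ∈ P, q.eval i * y i = 0 := fun q => by
    induction q using Polynomial.induction_on' with
    | add p q hp hq => simp only [Polynomial.eval_add, add_mul, Finset.sum_add_distrib, hp, hq,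
        add_zero]
    | monomial n c =>
      simp only [Polynomial.eval_monomial, mul_assoc, ← Finset.mul_sum, hc, mul_zero]
  have := key (∏ j ∈ P.erase s, (Polynomial.X - Polynomial.C j))
  rw [← Finset.add_sum_erase _ _ hs, Finset.sum_eq_zero, add_zero] at this
  · refine mul_ne_zero ?_ h this
    simp only [Polynomial.eval_prod, Polynomial.eval_sub, Polynomial.eval_X, Polynomial.eval_C]
    exact Finset.prod_ne_zero_iff.2 fun j hj => sub_ne_zero.2 (Finset.ne_of_mem_erase hj).symm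
  · intro i hi
    rw [Polynomial.eval_prod, Finset.prod_eq_zero hi (by simp), zero_mul]

lemma fix_sign (σ : Ω ≃ₐ[C] Ω) {c : Ω} (h : c ^ 2 = 1) : σ c = c := by
  rcases sq_eq_one_iff_of_ne_zero_aux h with rfl | rfl <;> simp
where
  sq_eq_one_iff_of_ne_zero_aux {c : Ω} (h : c ^ 2 = 1) : c = 1 ∨ c = -1 := by
    rwa [sq, mul_self_eq_one_iff] at h

theorem onestep [IsAlgClosed Ω] (h : Full G P) (hP : 3 ≤ P.card) {f : Ω → Ω}
    (hf : ∀ σ ∈ G, ∀ i ∈ P, σ (f i) = f (σ i)) (f0 : ∀ i ∈ P, f i ≠ 0) {s s' w : Ω} (hs : s ∈ P)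
    (hs' : s' ∈ P) (k : s ≠ s') (w2 : w ^ 2 = f s * f s')
    (hw : ∀ σ ∈ G, σ s = s → σ s' = s' → σ w = w) :
    ∃ x r, x ≠ 0 ∧ Inv G x ∧ (∀ σ ∈ G, σ s = s → σ r = r) ∧ r ^ 2 = x * f s := by
  obtain ⟨W, hW⟩ : ∃ W : Ω → Ω → Ω, ∀ τ ∈ G, W (τ s) (τ s') = τ w := by
    refine ⟨fun i j => if e : ∃ τ ∈ G, τ s = i ∧ τ s' = j then e.choose w else 0, fun τ hτ => ?_⟩
    have e : ∃ ρ ∈ G, ρ s = τ s ∧ ρ s' = τ s' := ⟨τ, hτ, rfl, rfl⟩
    simp only [dif_pos e]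
    obtain ⟨e1, e2, e3⟩ := e.choose_spec
    generalize e.choose = ρ at e1 e2 e3
    exact (ρ.symm_apply_eq.1 (hw (ρ⁻¹ * τ) (mul_mem (inv_mem e1) hτ)
      (ρ.symm_apply_eq.2 e2.symm) (ρ.symm_apply_eq.2 e3.symm))).symm
  have eqv : ∀ σ ∈ G, ∀ i ∈ P, ∀ j ∈ P, i ≠ j → σ (W i j) = W (σ i) (σ j) :=
    fun σ hσ i hi j hj e => by
      obtain ⟨τ, t1, rfl, rfl⟩ := trans2 h hs hs' hi hj k e
      rw [hW τ t1]
      exact (hW (σ * τ) (mul_mem hσ t1)).symm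
  have sq : ∀ i ∈ P, ∀ j ∈ P, i ≠ j → W i j ^ 2 = f i * f j := fun i hi j hj e => by
    obtain ⟨τ, t1, rfl, rfl⟩ := trans2 h hs hs' hi hj k e
    rw [hW τ t1, ← map_pow, w2, map_mul, hf τ t1 s hs, hf τ t1 s' hs']
  obtain ⟨s'', hs'', k1, k2⟩ := third hP hs hs' k
  obtain ⟨c, c2, hc⟩ : ∃ c, c ^ 2 = 1 ∧ ∀ i ∈ P, ∀ j ∈ P, i ≠ s → j ≠ s → i ≠ j →
      W s i * W s j * W i j = c * (f s * f i * f j) := by
    have n : f s * f s' * f s'' ≠ 0 := mul_ne_zero (mul_ne_zero (f0 s hs) (f0 s' hs')) (f0 s'' hs'')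
    have c2 : (W s s' * W s s'' * W s' s'' / (f s * f s' * f s'')) ^ 2 = 1 := by
      rw [div_pow, mul_pow, mul_pow, sq s hs s' hs' k, sq s hs s'' hs'' k1.symm,
        sq s' hs' s'' hs'' k2.symm, div_eq_one_iff_eq (pow_ne_zero 2 n)]
      ring
    refine ⟨_, c2, fun i hi j hj e1 e2 e3 => ?_⟩
    obtain ⟨τ, t1, t2, rfl, rfl⟩ := trans3 h hs hs' hs'' hs hi hj k k1.symm k2.symm e1.symm
      e2.symm e3
    rw [← fix_sign τ c2, ← hf τ t1 s' hs', ← hf τ t1 s'' hs'', ← eqv τ t1 s' hs' s'' hs'' k2.symm]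
    conv => enter [2, 2, 1, 1]; rw [← t2, ← hf τ t1 s hs]
    conv => enter [1, 1]; rw [← t2, ← eqv τ t1 s hs s' hs' k, ← eqv τ t1 s hs s'' hs'' k1.symm]
    simp only [← map_mul]
    rw [div_mul_cancel₀ _ n]
  obtain ⟨y0, hy0⟩ := IsAlgClosed.exists_pow_nat_eq (f s) two_pos
  have n0 : y0 ≠ 0 := fun e => f0 s hs (by rw [← hy0, e]; simp)
  obtain ⟨y, y1, y2⟩ : ∃ y : Ω → Ω, y s = c * y0 ∧ ∀ i, i ≠ s → y i = W s i / y0 :=
    ⟨fun i => if i = s then c * y0 else W s i / y0, if_pos rfl, fun i e => if_neg e⟩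
  have ysq : ∀ i ∈ P, y i ^ 2 = f i := fun i hi => by
    by_cases e : i = s
    · rw [e, y1, mul_pow, c2, one_mul, hy0]
    · rw [y2 i e, div_pow, sq s hs i hi (Ne.symm e), hy0, mul_div_cancel_left₀ _ (f0 s hs)]
  have y0' : ∀ i ∈ P, y i ≠ 0 := fun i hi e => f0 i hi (by rw [← ysq i hi, e]; simp)
  have a1 : ∀ i ∈ P, ∀ j ∈ P, i ≠ s → j ≠ s → i ≠ j → W i j = c * (y i * y j) :=
    fun i hi j hj e1 e2 e3 => by
      have q := hc i hi j hj e1 e2 e3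
      have q1 : W s i = y i * y0 := by rw [y2 i e1, div_mul_cancel₀ _ n0]
      have q2 : W s j = y j * y0 := by rw [y2 j e2, div_mul_cancel₀ _ n0]
      rw [q1, q2, ← hy0, ← ysq i hi, ← ysq j hj] at q
      refine mul_left_cancel₀ (mul_ne_zero (mul_ne_zero (y0' i hi) n0)
        (mul_ne_zero (y0' j hj) n0)) (q.trans (by ring))
  have a2 : ∀ i ∈ P, i ≠ s → W s i = c * (y s * y i) := fun i hi e => by
    rw [y1, y2 i e]
    field_simp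
    rw [c2, mul_one]
  have a3 : ∀ i ∈ P, ∀ j ∈ P, i ≠ j → W i j = c * (y i * y j) := fun i hi j hj e => by
    by_cases e1 : i = s
    · exact e1 ▸ a2 j hj (e1 ▸ e.symm)
    by_cases e2 : j = s
    · obtain ⟨τ, t1, t2, t3⟩ := trans2 h hs' hs'' hi hj k2.symm e
      have q : W s' s'' = W s'' s' := by
        rw [a1 s' hs' s'' hs'' k.symm k1 k2.symm, a1 s'' hs'' s' hs' k1 k.symm k2, mul_comm (y s')]
      have := congrArg τ q
      rw [eqv τ t1 s' hs' s'' hs'' k2.symm, eqv τ t1 s'' hs'' s' hs' k2, t2, t3] at this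
      rw [this, e2, a2 i hi e1, mul_comm (y s)]
    · exact a1 i hi j hj e1 e2 e
  have c0 : c ≠ 0 := fun e => by simp [e] at c2
  have b1 : ∀ σ ∈ G, ∀ i ∈ P, σ (y i) * σ (y s) = y (σ i) * y (σ s) := fun σ hσ i hi => by
    by_cases e : i = s
    · rw [e, ← map_mul, ← pow_two, ← pow_two, ysq s hs, ysq _ (h.stb σ hσ s hs), hf σ hσ s hs]
    · have := eqv σ hσ i hi s hs e
      rw [a3 i hi s hs e, a3 _ (h.stb σ hσ i hi) _ (h.stb σ hσ s hs) fun q => e (σ.injective q),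
        map_mul, map_mul, fix_sign σ c2] at this
      exact mul_left_cancel₀ c0 this
  obtain ⟨a, ha⟩ := ex_pow hs (y0' s hs)
  have b2 : ∀ σ ∈ G, σ (∑ i ∈ P, i ^ a * y i) * σ (y s) = (∑ i ∈ P, i ^ a * y i) * y (σ s) :=
    fun σ hσ => by
      rw [map_sum, Finset.sum_mul, Finset.sum_mul]
      refine Finset.sum_bij (fun i _ => σ i) (fun i hi => h.stb σ hσ i hi)
        (fun i _ j _ e => σ.injective e) (fun j hj => ⟨σ⁻¹ j, h.stb _ (inv_mem hσ) j hj,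
          σ.apply_symm_apply j⟩) fun i hi => ?_
      rw [map_mul, map_pow, mul_assoc, b1 σ hσ i hi, mul_assoc]
  refine ⟨(∑ i ∈ P, i ^ a * y i) ^ 2, (∑ i ∈ P, i ^ a * y i) * y s, pow_ne_zero 2 ha,
    fun σ hσ => ?_, fun σ hσ e => by rw [map_mul, b2 σ hσ, e], by rw [mul_pow, ysq s hs]⟩
  have := congrArg (· ^ 2) (b2 σ hσ)
  simp only [mul_pow, ← map_pow] at this
  rw [ysq s hs, ysq _ (h.stb σ hσ s hs), hf σ hσ s hs] at this
  exact mul_right_cancel₀ (f0 _ (h.stb σ hσ s hs)) this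

end Pool.Agent.MP_249f74_an.H58
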