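import Pool.Agent.MP_249f74_an.H58.Core
import Pool.Agent.MP_249f74_an.H58.One

/-!
A relation over a run of a mirror that is not a quadric descends to a one step relation.
-/

namespace Pool.Agent.MP_249f74_an.H58

open H42 H42.Sys
open H96A (Fx Inv Full sg grp mem_Fx_one)
open scoped Classical

variable {C Ω κ : Type} [Field C] [Field Ω] [Algebra C Ω] {S : Sys C Ω κ}
variable {μ : S.M} {L : ℤ → κ → Ω} {t : ℤ → Ω} {b c e : ℤ} {l l' l₁ k : κ → Ω} {s : Ω}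

lemma cj_fx {σ τ : Ω ≃ₐ[C] Ω} {a b : Ω} (h1 : τ a = b) (h2 : σ b = b) :
    τ⁻¹ * σ * τ ∈ Fx C {a} := mem_Fx_one.2 (by
  rw [AlgEquiv.mul_apply, AlgEquiv.mul_apply, h1, h2, ← h1]
  exact τ.symm_apply_apply a)

lemma cj_mem {σ τ : Ω ≃ₐ[C] Ω} {H : Subgroup (Ω ≃ₐ[C] Ω)} (h1 : τ ∈ H) (h2 : σ ∈ H) :
    τ⁻¹ * σ * τ ∈ H := H.mul_mem (H.mul_mem (H.inv_mem h1) h2) h1

lemma ex_st (hB : S.Bas) (hS : S.Sec) (g : Gen C l) (h : S.St μ l s l') {i : Ω}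
    (hi : i ∈ S.Pts μ l) : ∃ l'', S.St μ l i l'' := by
  obtain ⟨τ, t1, rfl⟩ := grp.trans _ _ _ _ (hS.full μ l g) (hB.mem _ _ _ _ h) hi
  exact ⟨_, mem_FL.1 t1 ▸ hB.map _ _ _ _ τ h⟩

lemma ex_f (hB : S.Bas) (hS : S.Sec) (g : Gen C l) (h : S.St μ l s l') {Ψ : MvPolynomial κ C}
    (h0 : Ψ ≠ 0) : ∃ f : Ω → Ω, (∀ i l'', S.St μ l i l'' → f i = ev l'' Ψ) ∧
      (∀ σ ∈ FL C l, ∀ i ∈ S.Pts μ l, σ (f i) = f (σ i)) ∧ ∀ i ∈ S.Pts μ l, f i ≠ 0 := by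
  obtain ⟨f, hf⟩ : ∃ f : Ω → Ω, ∀ i l'', S.St μ l i l'' → f i = ev l'' Ψ :=
    ⟨fun i => if e : ∃ l'', S.St μ l i l'' then ev e.choose Ψ else 0, fun i l'' q => by
      have e : ∃ l'', S.St μ l i l'' := ⟨_, q⟩
      simp only [dif_pos e]
      rw [hB.det _ _ _ _ _ e.choose_spec q]⟩
  refine ⟨f, hf, fun σ hσ i hi => ?_, fun i hi => ?_⟩
  · obtain ⟨l'', q⟩ := ex_st hB hS g h hi
    rw [hf _ _ q, hf _ _ (mem_FL.1 hσ ▸ hB.map _ _ _ _ σ q), ev_mp]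
  · obtain ⟨l'', q⟩ := ex_st hB hS g h hi
    exact hf _ _ q ▸ fun z => h0 (hB.gen _ _ _ _ q g _ z)

variable [IsAlgClosed Ω] [Finite κ]

lemma card_le (hB : S.Bas) (hS : S.Sec) (g : Gen C l) (h : S.St μ l s l') (g1 : Gen C l₁) :
    (S.Pts μ l).card ≤ (S.Pts μ l₁).card := by
  obtain ⟨σ, rfl⟩ := conj (C := C) (l := l) (l' := l₁) fun F =>
    ⟨fun z => by rw [g F z, map_zero], fun z => by rw [g1 F z, map_zero]⟩
  refine Finset.card_le_card_of_injOn σ (fun i hi => ?_) σ.injective.injOn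
  obtain ⟨l'', q⟩ := ex_st hB hS g h hi
  exact hB.mem _ _ _ _ (hB.map _ _ _ _ σ q)

variable [IsAlgClosed C] [CharZero Ω]

theorem sib (hf : Sf C Ω κ) (hB : S.Bas) (hL : S.LIFT) (hS : S.Sec) (hn : ¬S.Qd μ)
    (h : Fre S μ L t b (c + 1)) (hbc : b < c) (hk : Inf S μ k) (hΔ : ev k (S.Δ μ) = 0)
    {Φ Ψ : MvPolynomial κ C} (hΦ : Squarefree Φ) (hΨ : Squarefree Ψ) {r : Ω}
    (hr : Inv (Hg C L t b (c + 1)) r) (r2 : r ^ 2 = ev (L b) Φ * ev (L (c + 1)) Ψ) :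
    ∃ x r, x ≠ 0 ∧ Inv (FL C (L c)) x ∧ (∀ σ ∈ FL C (L c), σ (t c) = t c → σ r = r) ∧
      r ^ 2 = x * ev (L (c + 1)) Ψ := by
  have one : ∀ k : κ → Ω, Inf S μ k → ev k (1 : MvPolynomial κ C) ≠ 0 := fun _ _ => by simp
  have hU : ∀ k, Inf S μ k → ev k Ψ ≠ 0 := fun k hk z => core hf hB hL h (j := b) (by omega) le_rfl
    (by omega) hΦ hΨ one hk (.inr z) (by rw [r2, map_one, mul_one]) hr
  have g := h.gen c hbc.le (by omega)
  have st := h.ch.st c hbc.le (by omega)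
  have sp := hB.symm _ _ _ _ (h.ch.st' hbc (by omega))
  obtain ⟨f, f1, f2, f3⟩ := ex_f hB hS g st hΨ.ne_zero
  have hfull := hS.full μ _ g
  have hs := hB.mem _ _ _ _ st
  have hp := hB.mem _ _ _ _ sp
  have hps := h.ch.nb' hbc (by omega)
  have hP : 3 ≤ (S.Pts μ (L c)).card := by
    have := hB.card μ _ g
    have := mt (hB.qd μ _ g) hn
    omega
  have fs := f1 _ _ st
  have fp := f1 _ _ sp
  have hFr : ∀ i, i < c → S.Fr (fun _ => μ) L t i c = (S.Pts μ (L c)).erase (t (c - 1)) :=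
    fun i hi => if_pos hi
  have F0 : ∀ i, b ≤ i → i < c → Full (Hg C L t i c) ((S.Pts μ (L c)).erase (t (c - 1))) :=
    fun i h1 h2 => hFr i h2 ▸ h.fr' hB hS h1 h2.le (by omega)
  have hle : ∀ i, i ≤ c → Hg C L t i c ≤ FL C (L c) := fun i hi => hg_fl hi le_rfl
  have hr' : Inv (Hg C L t b c ⊓ Fx C {t c}) r := h.ch.hg_right hB hbc.le ▸ hr
  rw [← fs] at r2 ⊢
  have x0 : ev (L b) Φ ≠ 0 := fun z => hΦ.ne_zero (h.gen b le_rfl (by omega) _ z)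
  have xi : Inv (Hg C L t b c) (ev (L b) Φ) := (inv_ev _ _).mono (hg_fl le_rfl hbc.le)
  obtain ⟨s', hs', k1, k2⟩ := third hP hs hp hps
  have es := Finset.mem_erase.2 ⟨hps, hs⟩
  have es' := Finset.mem_erase.2 ⟨k2, hs'⟩
  obtain ⟨τ, t1, t2⟩ := grp.trans _ _ _ _ (F0 b le_rfl hbc) es es'
  obtain ⟨w, w1, w2⟩ : ∃ w, Inv (Hg C L t b c ⊓ Fx C {t c} ⊓ Fx C {s'}) w ∧
      w ^ 2 = f (t c) * f s' := by
    refine ⟨r * τ r / ev (L b) Φ, ((hr'.mono inf_le_left).mul fun σ hσ => ?_).div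
      (xi.mono (inf_le_left.trans inf_le_left)), ?_⟩
    · exact τ.symm_apply_eq.1 (hr' (τ⁻¹ * σ * τ) ⟨cj_mem t1 hσ.1.1,
        cj_fx t2 (mem_Fx_one.1 hσ.2)⟩)
    · rw [div_pow, mul_pow, ← map_pow τ, r2, map_mul, xi τ t1, f2 τ (hle b hbc.le t1) _ hs, t2]
      field_simp
  refine onestep hfull hP f2 f3 hs hs' k1.symm w2 fun σ h1 h2 h3 => by_contra fun h4 => ?_
  obtain ⟨j, j1, j2, j3, j4⟩ := exists_step
    (fun j => ¬Inv (Hg C L t j c ⊓ Fx C {t c} ⊓ Fx C {s'}) w) b c hbc.le (not_not.2 w1)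
    fun z => h4 (z σ ⟨⟨hg_self.ge h1, mem_Fx_one.2 h2⟩, mem_Fx_one.2 h3⟩)
  have hc' := h.ch.mono j1 (show c ≤ c + 1 by omega)
  have i1 : Inv (Hg C L t (j + 1) c ⊓ Fx C {t c} ⊓ Fx C {s'} ⊓ Fx C {t j}) w := fun σ hσ =>
    not_not.1 j3 σ ⟨⟨(hc'.hg_left hB j2).ge ⟨hσ.1.1.1, hσ.2⟩, hσ.1.1.2⟩, hσ.1.2⟩
  have i2 : Inv (Hg C L t (j + 1) c ⊓ Fx C {t c} ⊓ Fx C {s'}) (w ^ 2) := fun σ hσ => by
    have := hle _ j2 hσ.1.1
    rw [w2, map_mul, f2 σ this _ hs, f2 σ this _ hs', mem_Fx_one.1 hσ.1.2, mem_Fx_one.1 hσ.2]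
  have g' := h.gen (j + 1) (by omega) (by omega)
  have sq := hS.sqf μ
  rcases (show j + 1 ≤ c from j2).eq_or_lt with rfl | j5
  · rw [hg_self] at i1 i2 j4
    rw [add_sub_cancel_right] at *
    obtain ⟨q1, q2⟩ := grp.quad _ _ (t j) w (grp.stab _ _ _ (grp.stab _ _ _ hfull hs)
      (Finset.mem_erase.2 ⟨k1, hs'⟩)) (Finset.mem_erase.2 ⟨k2.symm, Finset.mem_erase.2
        ⟨hps.symm, hp⟩⟩) i1 i2 j4
    obtain ⟨z, z1, z2⟩ := hS.root g μ (inf_le_left.trans inf_le_left) fun σ hσ => by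
      rw [q2 σ hσ, grp.erase σ _ _ (mem_Fx_one.1 hσ.2), grp.erase σ _ _ (mem_Fx_one.1 hσ.1.2)]
    obtain ⟨ρ, r1, r3, r4⟩ := trans2 hfull hs hs' hs hp k1.symm hps
    have v2 : (r * ρ z / f (t (j + 1))) ^ 2 =
        ev (L b) Φ * ev (L j) Ψ * ev (L (j + 1)) (S.Δ μ) := by
      have := f3 _ hs
      rw [div_pow, mul_pow, ← map_pow ρ, z2, w2, r2, map_mul, map_mul, f2 ρ r1 _ hs, f2 ρ r1 _ hs',
        r3, r4, inv_ev _ _ ρ r1, fp]
      field_simp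
    refine core hf hB hL (h.mono hB hS le_rfl (by omega)) hbc j1 (by omega) hΦ sq hU hk (.inr hΔ)
      v2 (by_contra fun z3 => ?_)
    have := (grp.quad _ _ _ _ (F0 b le_rfl hbc) es ((hr'.mul fun σ hσ => ?_).div fun σ hσ => ?_)
      (v2 ▸ (xi.mul ((inv_ev _ _).mono (hg_fl j1 (by omega)))).mul
        ((inv_ev _ _).mono (hle b hbc.le))) z3).1
    · rw [Finset.card_erase_of_mem (Finset.mem_erase.2 ⟨k1, hs'⟩),
        Finset.card_erase_of_mem hs] at q1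
      rw [Finset.card_erase_of_mem hp] at this
      omega
    · exact ρ.symm_apply_eq.1 (z1 (ρ⁻¹ * σ * ρ) ⟨⟨cj_mem r1 (hle b hbc.le hσ.1),
        cj_fx r3 (mem_Fx_one.1 hσ.2)⟩, cj_fx r4 (hσ.1.2 j j1 (by omega))⟩)
    · rw [f2 σ (hle b hbc.le hσ.1) _ hs, mem_Fx_one.1 hσ.2]
  · have h' := h.mono hB hS (show b ≤ j + 1 by omega) (show c ≤ c + 1 by omega)
    have F1 := F0 (j + 1) (by omega) j5
    have F2 : Full (Hg C L t (j + 1) c) (S.Fl (fun _ => μ) L t (j + 1) c) :=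
      h.ff' hB hS (by omega) j5.le (by omega)
    have hl' : Hg C L t (j + 1) c ≤ FL C (L (j + 1)) := hg_fl le_rfl j5.le
    have sge : ∀ σ ∈ Hg C L t (j + 1) c, sg σ ((S.Pts μ (L c)).erase (t (c - 1))) =
        sg σ (S.Pts μ (L c)) := fun σ hσ => grp.erase σ _ _ (hσ.2 _ (by omega) (by omega))
    have F3 := grp.drop _ _ _ F1 F2 fun _ => by_contra fun z => by
      push Not at z
      obtain ⟨y, y1, y2⟩ := move hS g' g hl' (hle _ j5.le) {μ} fun T hT σ hσ => by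
        rw [Finset.mem_singleton.1 hT, ← sge σ hσ, z σ hσ, sg_fl hσ]
      exact core hf hB hL h' j5 j5.le le_rfl sq sq one hk (.inl hΔ) (by simpa [R] using y2) y1
    obtain ⟨q1, q2⟩ := grp.quad _ _ (t j) w (F3.mono
      (H' := Hg C L t (j + 1) c ⊓ Fx C {t c} ⊓ Fx C {s'}) (fun σ hσ => ⟨⟨hσ.1,
      mem_Fx_one.2 (hσ.2 _ es)⟩, mem_Fx_one.2 (hσ.2 _ es')⟩) fun σ hσ => F2.stb σ hσ.1.1)
      (hc'.mem_fl hB j2) i1 i2 j4
    obtain ⟨z, z1, z2⟩ := hS.root g' μ (inf_le_left.trans (inf_le_left.trans hl'))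
      fun σ hσ => by rw [q2 σ hσ, sg_fl hσ.1.1]
    have c3 : ((S.Pts μ (L c)).erase (t (c - 1))).card ≤ 2 := by
      have := card_le hB hS g st g'
      rw [Fl, if_pos j5, Finset.card_erase_of_mem
        (hB.mem _ _ _ _ (h.ch.st (j + 1) (by omega) (by omega)))] at q1
      rw [Finset.card_erase_of_mem hp]
      omega
    have N1 : Inv (FL C (L c)) (∏ i ∈ S.Pts μ (L c), f i) := fun σ hσ => by
      rw [map_prod]
      exact Finset.prod_bij (fun i _ => σ i) (fun i hi => hfull.stb σ hσ i hi)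
        (fun i _ j _ e => σ.injective e) (fun j hj => ⟨σ⁻¹ j, hfull.stb _ (inv_mem hσ) j hj,
          σ.apply_symm_apply j⟩) fun i hi => f2 σ hσ i hi
    have N2 : ∏ i ∈ S.Pts μ (L c), f i = ev (L (c - 1)) Ψ * w ^ 2 := by
      rw [← Finset.mul_prod_erase _ _ hp, ← Finset.eq_of_subset_of_card_le
        (s := {t c, s'}) (Finset.insert_subset es (Finset.singleton_subset_iff.2 es'))
        (by rwa [Finset.card_pair k1.symm]), Finset.prod_pair k1.symm, w2, fp]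
    have N3 : ∏ i ∈ S.Pts μ (L c), f i ≠ 0 := Finset.prod_ne_zero_iff.2 f3
    have pi : Inv (Hg C L t (j + 1) c) (ev (L (c - 1)) Ψ) :=
      (inv_ev _ _).mono (hg_fl (by omega) (by omega))
    have v2 : (z * ev (L (c - 1)) Ψ) ^ 2 =
        ev (L (j + 1)) (S.Δ μ) * ev (L (c - 1)) Ψ * ∏ i ∈ S.Pts μ (L c), f i := by
      rw [mul_pow, z2, N2]
      ring
    obtain ⟨v, θ, v1, θ0, θ1, v3⟩ : ∃ v θ, Inv (Hg C L t (j + 1) c) v ∧ θ ≠ 0 ∧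
        Inv (FL C (L c)) θ ∧ v ^ 2 = ev (L (j + 1)) (S.Δ μ) * ev (L (c - 1)) Ψ * θ := by
      by_cases z3 : Inv (Hg C L t (j + 1) c) (z * ev (L (c - 1)) Ψ)
      · exact ⟨_, _, z3, N3, N1, v2⟩
      obtain ⟨-, q3⟩ := grp.quad _ _ _ _ F1 es (Inv.mul (fun σ hσ => z1 σ ⟨hσ, mem_Fx_one.2
        (other c3 es es' (F1.stb σ hσ.1 _ es') k1.symm fun q => k1
          (σ.injective (q.trans (mem_Fx_one.1 hσ.2).symm)))⟩) (pi.mono inf_le_left))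
        (v2 ▸ (((inv_ev _ _).mono hl').mul pi).mul (N1.mono (hle _ j5.le))) z3
      obtain ⟨v, v1, v3⟩ := hS.root g μ (hle _ j5.le) fun σ hσ => by rw [q3 σ hσ, sge σ hσ]
      exact ⟨v, _, v1, mul_ne_zero N3 (hS.ne g μ), N1.mul (inv_ev _ _), by
        rw [v3, v2, mul_assoc]⟩
    obtain ⟨N, u, n1, n2, n3, n4⟩ := sqf hf g θ0 θ1
    refine core hf hB hL h' (j := c - 1) (r := v / u) j5 (by omega) (by omega) sq n1 hU hk (.inl hΔ)
      ?_ (v1.div (n3.mono (hle _ j5.le)))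
    rw [div_pow, v3, n4]
    field_simp

theorem br (hf : Sf C Ω κ) (hB : S.Bas) (hL : S.LIFT) (hS : S.Sec) (h1 : SELF S) (h2 : CL1 S)
    (h3 : CLQ S) : S.BR := by
  intro m L t b e x r J hc hg hrun hFR hFF hrel
  by_cases hn : S.Qd (m (e - 1))
  · exact br_at hf hB hL hS (h3 _ hn) hc hg hrun hFR hFF hrel
  obtain ⟨c, rfl⟩ : ∃ c, e = c + 1 := ⟨e - 1, by ring⟩
  have hbc : b ≤ c := by have := hrun.be; omega
  have hm := hrun.eq
  rw [add_sub_cancel_right] at hn hm ⊢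
  have gen : ∀ i, b ≤ i → i ≤ c + 1 → Gen C (L i) := fun i => hc.gen hB hg le_rfl (by omega)
  have st := hc.st c hbc (by omega)
  have hx : Inv (FL C (L b)) x := by simpa only [hg_self] using hrel.hx
  refine fun T hT => .inl ?_
  rcases hbc.eq_or_lt with rfl | hbc'
  · exact h2 _ J _ _ _ x r hn hg st hrel.x0 hx (fun σ k1 k2 => hrel.hr σ
      ((hc.hg_right hB le_rfl).ge ⟨hg_self.ge k1, mem_Fx_one.2 k2⟩)) hrel.sq T hT
  have h : Fre S (m c) L t b (c + 1) := ⟨hc.congr fun i k1 k2 => (hm i k1 k2).symm, gen,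
    fun i k1 k2 => by simpa only [FR, Fr, hm i k1 k2] using hFR i k1 k2,
    fun i k1 k2 => by simpa only [FF, Fl, hm (i - 1) (by omega) (by omega)] using hFF i k1 k2⟩
  obtain ⟨k, hk⟩ := hS.ex (m c)
  obtain ⟨Φ, w, hΦ, hw0, hw, e1⟩ := sqf hf hg hrel.x0 hx
  have ge := gen (c + 1) (by omega) le_rfl
  obtain ⟨Ψ, u, hΨ, u0, hu, e2⟩ := sqf hf ge (hS.R0 ge J) (inv_R J _)
  obtain ⟨x', r', k1, k2, k3, k4⟩ := sib hf hB hL hS hn h hbc' ⟨hS.cur _ _ hk, fun G g1 g2 g3 =>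
    hn (h1 _ G k g1 hk g2 g3)⟩ (hS.own _ _ hk) hΦ hΨ (r := r / (w * u)) (hrel.hr.div
      ((hw.mono (hg_fl le_rfl (by omega))).mul (hu.mono (hg_fl (by omega) le_rfl)))) (by
        rw [div_pow, hrel.sq, e1, e2]
        field_simp)
  exact h2 _ J _ _ _ x' (r' * u) hn (gen c hbc (by omega)) st k1 k2 (fun σ q1 q2 => by
    rw [map_mul, k3 σ q1 q2, hu σ (hB.fix st q1 q2)]) (by rw [mul_pow, k4, e2, mul_assoc]) T hT

/-- A reduced chain does not close up. -/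
theorem fin (hf : Sf C Ω κ) (hB : S.Bas) (hL : S.LIFT) (hS : S.Sec) (hP : S.PASS) (h1 : SELF S)
    (h2 : CL1 S) (h3 : CLQ S) (hT : S.SPLIT) (hE : S.END) : S.FIN :=
  fin0 hf hB hL hS hP (br hf hB hL hS h1 h2 h3) h3 hT hE

end Pool.Agent.MP_249f74_an.H58
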