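import Pool.Agent.MP_249f74_an.H58.Def

/-!
Edges with an infinite class; parity along geodesics in an infinite class.
-/

namespace Pool.Agent.MP_249f74_an.H58

open H42 H42.Sys
open H96A (Fx Inv Full sg grp mem_Fx_one)
open scoped Classical

variable {C Ω κ : Type} [Field C] [Field Ω] [Algebra C Ω] {S : Sys C Ω κ}

variable (S) in
/-- Generic points of hypersurfaces with an infinite class. -/
def Inf (μ : S.M) (k : κ → Ω) : Prop :=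
  Cur C k ∧ ∀ G : MvPolynomial κ C, G ≠ 0 → ev k G = 0 →
    ¬∀ l y l', S.St μ l y l' → Cur C l → ev l G = 0 → ev l' G = 0

variable {μ : S.M} {L K : ℤ → κ → Ω} {t u : ℤ → Ω} {a b c e i j : ℤ} {k k' : κ → Ω}

lemma Inf.st (hB : S.Bas) {y : Ω} (s : S.St μ k y k') (h : Inf S μ k) : Inf S μ k' :=
  ⟨hB.cur _ _ _ _ s h.1, fun G g1 g2 g3 => h.2 G g1
    (g3 _ _ _ (hB.symm _ _ _ _ s) (hB.cur _ _ _ _ s h.1) g2) g3⟩

lemma Inf.mp (h : Inf S μ k) (σ : Ω ≃ₐ[C] Ω) : Inf S μ (mp σ k) :=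
  ⟨h.1.mp σ, fun G g1 g2 => h.2 G g1 (by rwa [ev_mp, map_eq_zero] at g2)⟩

lemma good_sub {B B' : Set (κ → Ω)} (h : Good C B) (h1 : B' ⊆ B)
    (h2 : ∀ σ : Ω ≃ₐ[C] Ω, ∀ l ∈ B', mp σ l ∈ B') : Good C B' := by
  obtain ⟨T, t1, t2, t3⟩ := h.fin
  refine ⟨fun l hl => h.cur l (h1 hl), h2, T ∩ B', t1.inter_of_left _, Set.inter_subset_right,
    fun l hl => ?_⟩
  obtain ⟨s, s1, σ, rfl⟩ := t3 l (h1 hl)
  exact ⟨s, ⟨s1, by simpa only [mp_inv] using h2 σ⁻¹ _ hl⟩, σ, rfl⟩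

variable [IsAlgClosed Ω] [Finite κ]

lemma geo2 (hB : S.Bas) {F : MvPolynomial κ C} (hF : F ≠ 0) (hk : Inf S μ k) (h0 : ev k F = 0)
    (hab : a < b) : ∃ (K : ℤ → κ → Ω) (u : ℤ → Ω), S.Chn (fun _ => μ) K u a b ∧
      (∀ i, a ≤ i → i ≤ b → Inf S μ (K i)) ∧ ev (K a) F = 0 ∧ ev (K b) F ≠ 0 := by
  obtain ⟨G, g1, g2⟩ := (good_sub (B' := {l | Inf S μ l ∧ ev l F = 0}) (good_zero (Ω := Ω) hF)
    (fun l hl => ⟨hl.1.1, hl.2⟩) fun σ l hl => ⟨hl.1.mp σ, by rw [ev_mp, hl.2, map_zero]⟩).eq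
  obtain ⟨K, u, k1, k2, k3, k4⟩ := geo hB g1 hk.1 ((g2 k).1 ⟨hk, h0⟩).2 hk.2 hab
  have k5 := (g2 _).2 ⟨k2, k3⟩
  have k6 : ∀ i, a ≤ i → i ≤ b → Inf S μ (K i) := fun i =>
    k1.ind hB (fun _ _ _ _ _ _ => Inf.st hB) k5.1 le_rfl hab.le
  exact ⟨K, u, k1, k6, k5.2, fun z => k4 ((g2 _).1 ⟨k6 b hab.le le_rfl, z⟩).2⟩

variable [IsAlgClosed C] [CharZero Ω]

variable (S) in
/-- Free chains in one mirror. -/
structure Fre (μ : S.M) (L : ℤ → κ → Ω) (t : ℤ → Ω) (a b : ℤ) : Prop where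
  ch : S.Chn (fun _ => μ) L t a b
  gen : ∀ i, a ≤ i → i ≤ b → Gen C (L i)
  fr : ∀ i, a ≤ i → i < b → S.FR (fun _ => μ) L t a i
  ff : ∀ i, a < i → i ≤ b → S.FF (fun _ => μ) L t i b

theorem core (hf : Sf C Ω κ) (hB : S.Bas) (hL : S.LIFT) (h : Fre S μ L t a c) (hac : a < c)
    (h1 : a ≤ j) (h2 : j ≤ c) {A U B : MvPolynomial κ C} (hA : Squarefree A) (hB' : Squarefree B)
    (hU : ∀ k, Inf S μ k → ev k U ≠ 0) (hk : Inf S μ k) (h0 : ev k A = 0 ∨ ev k B = 0) {r : Ω}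
    (hr : r ^ 2 = ev (L a) A * ev (L j) U * ev (L c) B) : ¬Inv (Hg C L t a c) r := by
  obtain ⟨K, u, k1, k2, k3, k4⟩ := geo2 hB (mul_ne_zero hA.ne_zero hB'.ne_zero) hk
    (by rwa [map_mul, mul_eq_zero]) hac
  rw [map_mul] at k3 k4
  rcases mul_eq_zero.1 k3 with z | z
  · exact par hf hB hL h1 h2 h.ch (h.gen a le_rfl hac.le) h.fr k1 (k2 a le_rfl hac.le).1 hA z
      (hU _ (k2 j h1 h2)) (right_ne_zero_of_mul k4) hr
  · rw [← hg_rev]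
    refine par hf hB hL (j := -j) (Φ := U) (Φ' := A) (Ψ := B) (K := fun i => K (i + (a + c)))
      (u := fun i => u (i + (a + c))) (by omega) (by omega) (h.ch.rev hB)
      (by simpa only [rl, neg_neg] using h.gen c hac.le le_rfl) (fun i k1 k2 => ?_)
      ((k1.shift (a + c)).mono (by omega) (by omega)) (by simpa using (k2 a le_rfl hac.le).1) hB'
      (by simpa using z) (hU _ (k2 _ (by omega) (by omega)))
      (by simpa using left_ne_zero_of_mul k4) ?_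
    · simpa using FR_rev.2 (h.ff (-i) (by omega) (by omega))
    · simp only [rl, neg_neg]
      rw [hr]
      ring

omit [IsAlgClosed Ω] [Finite κ] [IsAlgClosed C] [CharZero Ω] in
lemma fl_stb (hB : S.Bas) {m : ℤ → S.M} {σ : Ω ≃ₐ[C] Ω} (hab : a ≤ b) (hσ : σ ∈ Hg C L t a b)
    {y : Ω} (hy : y ∈ S.Fl m L t a b) : σ y ∈ S.Fl m L t a b := by
  rw [← fr_rev] at hy ⊢
  exact fr_stb hB (by omega) (by rwa [hg_rev]) hy

omit [IsAlgClosed Ω] [Finite κ] [IsAlgClosed C] [CharZero Ω] in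
lemma Fre.fr' (hB : S.Bas) (hS : S.Sec) (h : Fre S μ L t a b) (h1 : a ≤ i) (h2 : i ≤ j)
    (h3 : j < b) : S.FR (fun _ => μ) L t i j := by
  rcases h2.eq_or_lt with rfl | h4
  · rw [FR, Fr, if_neg (lt_irrefl i), hg_self]
    exact hS.full _ _ (h.gen i h1 h3.le)
  · have := h.fr j (by omega) h3
    rw [FR, show S.Fr (fun _ => μ) L t a j = S.Fr (fun _ => μ) L t i j by
      rw [Fr, Fr, if_pos h4, if_pos (by omega)]] at this
    exact this.mono (hg_mono h1 le_rfl) fun σ hσ y => fr_stb hB h2 hσ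

omit [IsAlgClosed Ω] [Finite κ] [IsAlgClosed C] [CharZero Ω] in
lemma Fre.ff' (hB : S.Bas) (hS : S.Sec) (h : Fre S μ L t a b) (h1 : a < i) (h2 : i ≤ j)
    (h3 : j ≤ b) : S.FF (fun _ => μ) L t i j := by
  rcases h2.eq_or_lt with rfl | h4
  · rw [FF, Fl, if_neg (lt_irrefl i), hg_self]
    exact hS.full _ _ (h.gen i h1.le h3)
  · have := h.ff i h1 (by omega)
    rw [FF, show S.Fl (fun _ => μ) L t i b = S.Fl (fun _ => μ) L t i j by
      rw [Fl, Fl, if_pos h4, if_pos (by omega)]] at this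
    exact this.mono (hg_mono le_rfl h3) fun σ hσ y => fl_stb hB h2 hσ

omit [IsAlgClosed Ω] [Finite κ] [IsAlgClosed C] [CharZero Ω] in
lemma Fre.mono (hB : S.Bas) (hS : S.Sec) (h : Fre S μ L t a b) (h1 : a ≤ i) (h3 : j ≤ b) :
    Fre S μ L t i j :=
  ⟨h.ch.mono h1 h3, fun s k1 k2 => h.gen s (by omega) (by omega),
    fun s k1 k2 => h.fr' hB hS h1 k1 (by omega), fun s k1 k2 => h.ff' hB hS (by omega) k2 h3⟩

end Pool.Agent.MP_249f74_an.H58
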