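import Pool.Agent.MP_249f74_an.H42.Main

/-!
The geometric inputs that replace the general statement on finite classes.
-/

namespace Pool.Agent.MP_249f74_an.H58

open H42
open H96A (Inv)

variable {C Ω κ : Type} [Field C] [Field Ω] [Algebra C Ω] (S : Sys C Ω κ)

/-- The tangent complex of a mirror has a finite class only for quadrics. -/
def SELF : Prop :=
  ∀ m (G : MvPolynomial κ C) k, G ≠ 0 → S.Tl m k → ev k G = 0 →
    (∀ l t l', S.St m l t l' → Cur C l → ev l G = 0 → ev l' G = 0) → S.Qd m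

/-- Finite classes for quadrics. -/
def CLQ : Prop := ∀ m, S.Qd m → S.CL m

/-- One step relations. -/
def CL1 : Prop :=
  ∀ m (J : Finset S.M) l t l' x r, ¬S.Qd m → Gen C l → S.St m l t l' → x ≠ 0 →
    Inv (FL C l) x → (∀ σ ∈ FL C l, σ t = t → σ r = r) → r ^ 2 = x * S.R J l' →
    ∀ T ∈ J, S.Cm m T

end Pool.Agent.MP_249f74_an.H58
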