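import Pool.Agent.MP_249f74_an.H42.Par
import Pool.Agent.MP_249f74_an.H32.Bas
import Pool.Agent.MP_249f74_an.H65.Defs

/-!
The discriminant of the section of a real mirror is a real line polynomial up to squares.
-/

open Polynomial

namespace Pool.Agent.MP_249f74_an.H58

open H32 (Mir Pts Δ sys sec pos dir)
open H42 (ev Gen FL Sf inv_ev)
open H96A (Inv sg)
open H65 (Lin)

lemma coeff_taylor_top {B : Type} [CommRing B] {f : B[X]} {n : ℕ} (h : f.natDegree ≤ n) (r : B) :
    (taylor r f).coeff n = f.coeff n := by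
  rcases h.eq_or_lt with rfl | h
  · rw [coeff_natDegree, ← leadingCoeff_taylor r f, ← coeff_natDegree, natDegree_taylor]
  · rw [coeff_eq_zero_of_natDegree_lt h, coeff_eq_zero_of_natDegree_lt (by rwa [natDegree_taylor])]

lemma res_taylor {B : Type} [CommRing B] {f g : B[X]} {m n : ℕ} (hf : f.natDegree ≤ m)
    (hg : g.natDegree ≤ n) (r : B) :
    resultant (taylor r f) (taylor r g) m n = resultant f g m n := by
  obtain ⟨a, rfl⟩ := Nat.exists_eq_add_of_le hf
  obtain ⟨b, rfl⟩ := Nat.exists_eq_add_of_le hg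
  have := resultant_taylor f g r
  rw [natDegree_taylor, natDegree_taylor] at this
  rw [resultant_add_left_deg _ _ _ _ _ (natDegree_taylor f r).le,
    resultant_add_left_deg _ _ _ _ _ le_rfl,
    resultant_add_right_deg _ _ _ _ _ (natDegree_taylor g r).le,
    resultant_add_right_deg _ _ _ _ _ le_rfl, coeff_taylor_top hg, coeff_taylor_top le_rfl, this]

variable {k C Ω ι : Type} [Field k] [Field C] [Algebra k C] [Field Ω] [Algebra C Ω]

/-- The section by a line with coefficients in a ring. -/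
noncomputable def us {B : Type} [CommRing B] [Algebra k B] (G : MvPolynomial ι k) (x u : ι → B) :
    B[X] := MvPolynomial.aeval (fun i => Polynomial.C (x i) + Polynomial.C (u i) * X) G

lemma us_map {B B' : Type} [CommRing B] [Algebra k B] [CommRing B'] [Algebra k B']
    (φ : B →ₐ[k] B') (G : MvPolynomial ι k) (x u : ι → B) :
    (us G x u).map (φ : B →+* B') = us G (fun i => φ (x i)) fun i => φ (u i) := by
  unfold us
  induction G using MvPolynomial.induction_on with
  | C a => simp [Polynomial.algebraMap_apply]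
  | add p q hp hq => simp [hp, hq]
  | mul_X p i hp => simp [hp]

lemma us_tr {B : Type} [CommRing B] [Algebra k B] (G : MvPolynomial ι k) (x u : ι → B) (t : B) :
    us G (fun i => x i + t * u i) u = taylor t (us G x u) := by
  unfold us
  induction G using MvPolynomial.induction_on with
  | C a => simp [Polynomial.algebraMap_apply]
  | add p q hp hq => rw [map_add, map_add, map_add, hp, hq]
  | mul_X p i hp =>
    rw [map_mul, map_mul, hp, taylor_mul, MvPolynomial.aeval_X, MvPolynomial.aeval_X, map_add,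
      map_add, taylor_mul, taylor_C, taylor_C, taylor_X, map_mul]
    ring

open Classical in
lemma vdm (T : Finset Ω) : ∃ δ : Ω, ∃ n : ℕ, δ ≠ 0 ∧ (∀ σ : Ω ≃ₐ[C] Ω, (∀ a ∈ T, σ a ∈ T) →
    σ δ = ((sg σ T : ℤ) : Ω) * δ) ∧
      ∏ i ∈ T, ∏ j ∈ T.erase i, (i - j) = (-1) ^ n * δ ^ 2 := by
  let e := Fintype.equivFin T
  let M : Matrix T T Ω := (Matrix.vandermonde fun i => (e.symm i : Ω)).submatrix e e
  refine ⟨M.det, ∑ i : Fin (Fintype.card T), (Finset.Ioi i).card, ?_, fun σ hσ => ?_, ?_⟩
  · rw [Matrix.det_submatrix_equiv_self]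
    exact Matrix.det_vandermonde_ne_zero_iff.2 (Subtype.val_injective.comp e.symm.injective)
  · have h : ∀ a, σ.toEquiv a ∈ T ↔ a ∈ T := fun a =>
      ⟨fun h => by simpa using Equiv.Perm.perm_symm_on_of_perm_on_finset (f := σ.toEquiv) hσ h,
        hσ a⟩
    rw [sg, dif_pos h, ← Matrix.det_permute, AlgEquiv.map_det]
    congr 1
    ext a b
    simp [M]
  · have := Finset.prod_prod_Ioi_mul_eq_prod_prod_off_diag
      fun j i : Fin (Fintype.card T) => (e.symm i : Ω) - e.symm j
    rw [Matrix.det_submatrix_equiv_self, Matrix.det_vandermonde, ← Finset.prod_pow_eq_pow_sum,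
      ← Finset.prod_pow, ← Finset.prod_mul_distrib]
    simp only [← Finset.prod_const, ← Finset.prod_pow, ← Finset.prod_mul_distrib]
    refine Eq.trans ?_ (this.symm.trans (Finset.prod_congr rfl fun i _ =>
      Finset.prod_congr rfl fun j _ => by ring))
    refine (Finset.prod_bij (fun i _ => (e.symm i : Ω)) (fun i _ => (e.symm i).2)
      (fun i _ j _ q => e.symm.injective (Subtype.ext q))
      (fun a ha => ⟨e ⟨a, ha⟩, Finset.mem_univ _, by simp⟩) fun i _ => ?_).symm
    refine Finset.prod_bij (fun j _ => (e.symm j : Ω)) (fun j hj => Finset.mem_erase.2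
      ⟨fun q => by simpa [e.symm.injective (Subtype.ext q)] using hj, (e.symm j).2⟩)
      (fun i _ j _ q => e.symm.injective (Subtype.ext q))
      (fun a ha => ⟨e ⟨a, Finset.mem_of_mem_erase ha⟩, ?_, by simp⟩) fun _ _ => rfl
    simpa using fun q => Finset.ne_of_mem_erase ha (by simp [← q])

variable [Algebra k ℝ] [Fintype ι] [DecidableEq ι] [IsAlgClosed C] [IsAlgClosed Ω] [CharZero Ω]

theorem linreal (hf : Sf C Ω (ι ⊕ ι)) (hS : (sys k C Ω ι).Sec) {l : ι ⊕ ι → Ω} (hl : Gen C l)
    (m : Mir k C ι) : ∃ (D : MvPolynomial (ι ⊕ ι) k) (b e : MvPolynomial (ι ⊕ ι) C), D ≠ 0 ∧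
      Lin D ∧ b ≠ 0 ∧ e ≠ 0 ∧ b ^ 2 * MvPolynomial.map (algebraMap k C) D = e ^ 2 * Δ Ω m := by
  classical
  obtain ⟨G, a, -, hG, -⟩ := m.real
  letI : Algebra k Ω := ((algebraMap C Ω).comp (algebraMap k C)).toAlgebra
  haveI : IsScalarTower k C Ω := .of_algebraMap_eq fun _ => rfl
  obtain ⟨p, hp⟩ : ∃ p : (MvPolynomial (ι ⊕ ι) k)[X], p = us G (fun i => .X (.inl i))
    fun i => .X (.inr i) := ⟨_, rfl⟩
  have hm : ∀ (B : Type) [CommRing B] [Algebra k B] (x u : ι → B),
      p.map (H65.ev x u : MvPolynomial (ι ⊕ ι) k →ₐ[k] B) = us G x u := fun B _ _ x u => by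
    rw [hp, us_map]
    simp [H65.ev]
  have hr : ∀ (B : Type) [CommRing B] [Algebra k B] (x u : ι → B),
      H65.ev x u (resultant p p.derivative p.natDegree p.natDegree) =
        resultant (us G x u) (us G x u).derivative p.natDegree p.natDegree := fun B _ _ x u => by
    rw [← hm, derivative_map, resultant_map_map]
    rfl
  have e0 : ∀ F : MvPolynomial (ι ⊕ ι) k, ev l (MvPolynomial.map (algebraMap k C) F) =
      H65.ev (pos l) (dir l) F := fun F => by
    rw [ev, MvPolynomial.aeval_map_algebraMap, H65.ev]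
    congr 2
    ext (i | i) <;> rfl
  have inj : Function.Injective (H65.ev (pos l) (dir l) : MvPolynomial (ι ⊕ ι) k →ₐ[k] Ω) :=
    (injective_iff_map_eq_zero _).2 fun F h => MvPolynomial.map_injective _
      (algebraMap k C).injective (by rw [hl _ ((e0 F).trans h), map_zero])
  obtain ⟨q, hq⟩ : ∃ q, q = us G (pos l) (dir l) := ⟨_, rfl⟩
  have q1 : sec m.f l = Polynomial.C (algebraMap C Ω a) * q := by
    rw [sec, H17.Cm.line, hG, map_smul, MvPolynomial.aeval_map_algebraMap, hq, us,
      Algebra.smul_def, Polynomial.algebraMap_apply]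
  have s0 := H32.sec_ne m.prime.ne_zero (H32.gen_dir hl)
  have a0 : algebraMap C Ω a ≠ 0 := fun z => s0 (by simp [q1, z])
  have q0 : q ≠ 0 := fun z => s0 (by simp [q1, z])
  have q2 : q.natDegree = p.natDegree := by
    rw [hq, ← hm]
    exact natDegree_map_eq_of_injective inj p
  have q3 : q.roots = (Pts m l).1 := by
    refine (Multiset.eq_of_le_of_card_le (s := (Pts m l).1) ?_ ?_).symm
    · rw [H32.Pts, q1, roots_C_mul _ a0]
      exact Multiset.dedup_le _
    · rw [← (IsAlgClosed.splits q).natDegree_eq_card_roots, ← natDegree_C_mul a0, ← q1,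
        H32.natDegree_sec m.prime.ne_zero (H32.gen_dir hl)]
      exact (H32.card_pts m hl).ge
  obtain ⟨δ, n, δ0, δ1, δ2⟩ := vdm (C := C) (Pts m l)
  obtain ⟨j, hj⟩ := IsAlgClosed.exists_pow_nat_eq ((-1 : C) ^ n) two_pos
  have c0 := leadingCoeff_ne_zero.2 q0
  have c1 : Inv (FL C l) q.leadingCoeff := by
    rw [← coeff_natDegree, q2, hq, ← hm, coeff_map]
    exact (e0 (p.coeff p.natDegree)) ▸ inv_ev _ _
  have e1 : (q.leadingCoeff ^ p.natDegree * algebraMap C Ω j * δ) ^ 2 = ev l (MvPolynomial.map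
      (algebraMap k C) (resultant p p.derivative p.natDegree p.natDegree)) := by
    have d1 : ∀ i ∈ Pts m l, q.derivative.eval i =
        q.leadingCoeff * ∏ j ∈ (Pts m l).erase i, (i - j) := fun i hi => by
      conv_lhs => rw [(IsAlgClosed.splits q).eq_prod_roots, derivative_C_mul, eval_mul, eval_C,
        q3, eval_multiset_prod_X_sub_C_derivative hi]
      rfl
    rw [e0, hr, ← hq, ← q2, resultant_eq_prod_eval _ _ _ (natDegree_derivative_le q |>.trans
      (Nat.sub_le _ _)) (IsAlgClosed.splits q), q3, ← Finset.prod_eq_multiset_prod,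
      Finset.prod_congr rfl d1, Finset.prod_mul_distrib, δ2, Finset.prod_const,
      (IsAlgClosed.splits q).natDegree_eq_card_roots, q3, mul_pow, mul_pow, ← map_pow, hj]
    simp only [map_pow, map_neg, map_one, Finset.card_val]
    ring
  have j0 : algebraMap C Ω j ≠ 0 := (_root_.map_ne_zero _).2 fun z =>
    pow_ne_zero n (neg_ne_zero.2 (one_ne_zero' C)) (by rw [← hj, z, zero_pow two_ne_zero])
  generalize hD : resultant p p.derivative p.natDegree p.natDegree = D at e1
  have ρ0 := mul_ne_zero (mul_ne_zero (pow_ne_zero p.natDegree c0) j0) δ0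
  obtain ⟨r, r2⟩ := IsAlgClosed.exists_pow_nat_eq (ev l (Δ Ω m)) two_pos
  have n0 : ev l (Δ Ω m) ≠ 0 := hS.ne hl m
  have r0 : r ≠ 0 := fun z => n0 (by rw [← r2, z]; simp)
  have h1 := H96A.Bt.dcl _ (q.leadingCoeff ^ p.natDegree * algebraMap C Ω j * δ * r) (hf l hl)
    fun σ hσ => by
      rw [map_mul, map_mul, map_mul, map_pow, c1 σ hσ, σ.commutes,
        δ1 σ fun _ => H32.pts_stb hσ,
        show σ r = ((sg σ (Pts m l) : ℤ) : Ω) * r from hS.sgn m l hl σ hσ r r2]
      linear_combination q.leadingCoeff ^ p.natDegree * algebraMap C Ω j * δ * r *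
        H42.sg_sq σ (Pts m l)
  rw [IntermediateField.mem_adjoin_range_iff] at h1
  obtain ⟨A, B, hAB⟩ := h1
  change _ = ev l A / ev l B at hAB
  have hA : ev l A ≠ 0 := fun h => mul_ne_zero ρ0 r0 (by rw [hAB, h, zero_div])
  have hB : ev l B ≠ 0 := fun h => mul_ne_zero ρ0 r0 (by rw [hAB, h, div_zero])
  refine ⟨D, Δ Ω m * B, A, fun z => pow_ne_zero 2 ρ0 (by rw [e1, z, map_zero, map_zero]),
    H65.lin_of_tr fun B _ _ x u t => ?_, fun z => mul_ne_zero n0 hB (by rw [← map_mul, z, map_zero]),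
    fun z => hA (by rw [z, map_zero]), sub_eq_zero.1 (hl _ ?_)⟩
  · have d1 : (us G x u).natDegree ≤ p.natDegree := hm B x u ▸ natDegree_map_le
    rw [← hD, hr, hr, us_tr, ← res_taylor d1 ((natDegree_derivative_le _).trans
      ((Nat.sub_le _ _).trans d1)) t]
    congr 1
    simp [taylor_apply, derivative_comp]
  · rw [eq_div_iff hB] at hAB
    simp only [map_sub, map_mul, map_pow]
    rw [← e1, ← hAB, ← r2]
    ring

end Pool.Agent.MP_249f74_an.H58
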