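import Pool.Agent.MP_249f74_an.H58.Pre
import Pool.Agent.MP_249f74_an.H65.Cl

/-!
A one step relation makes the odd part of the discriminants invariant.
-/

namespace Pool.Agent.MP_249f74_an.H58

variable {k C Ω ι : Type} [Field k] [Field C] [Algebra k C] [Field Ω] [Algebra C Ω]
  [IsAlgClosed Ω] [CharZero Ω] [Algebra k ℝ] [Fintype ι] [DecidableEq ι] [IsAlgClosed C]

theorem one (hf : H42.Sf C Ω (ι ⊕ ι)) (hS : (H32.sys k C Ω ι).Sec) (hT : H18.SELF k C ι)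
    (hR : H65.RONE k ι) : H18.ONE k C Ω ι := by
  intro m J l l' t x r hm hl st x0 hx hr e
  obtain ⟨Φ, h, s, h1, h2, h3, h4, h5, h6, h7, h8⟩ := pre hf hS hl st x0 hx hr e
  exact ⟨_, h4, h3.map, H65.iv_of_sq hT hR hm hl st h1 h2 h3 h4 h7 h8, h5, h6⟩

end Pool.Agent.MP_249f74_an.H58
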